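import Mathlib

/-!
# The group SL(2,5)
-/

set_option autoImplicit false
set_option maxRecDepth 100000

namespace Pool.Agent.R710.Par

/-- Quadruples of elements of the field with five elements. -/
abbrev Q : Type := ZMod 5 × ZMod 5 × ZMod 5 × ZMod 5

/-- The traces of elements of orders `3` and `1`, `5`. -/
def inT (t : ZMod 5) : Bool := t == 4 || t == 2

/-- The list of matrices with trace `4` or `2`. -/
def LA : List Q := [(0, 1, 4, 2), (0, 1, 4, 4), (0, 2, 2, 2), (0, 2, 2, 4), (0, 3, 3, 2), (0, 3, 3, 4), (0, 4, 1, 2), (0, 4, 1, 4),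
  (1, 0, 0, 1), (1, 0, 1, 1), (1, 0, 2, 1), (1, 0, 3, 1), (1, 0, 4, 1), (1, 1, 0, 1), (1, 1, 2, 3), (1, 2, 0, 1),
  (1, 2, 1, 3), (1, 3, 0, 1), (1, 3, 4, 3), (1, 4, 0, 1), (1, 4, 3, 3), (2, 1, 3, 2), (2, 1, 4, 0), (2, 2, 2, 0),
  (2, 2, 4, 2), (2, 3, 1, 2), (2, 3, 3, 0), (2, 4, 1, 0), (2, 4, 2, 2), (3, 1, 1, 4), (3, 1, 2, 1), (3, 2, 1, 1),
  (3, 2, 3, 4), (3, 3, 2, 4), (3, 3, 4, 1), (3, 4, 3, 1), (3, 4, 4, 4), (4, 1, 1, 3), (4, 1, 4, 0), (4, 2, 2, 0),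
  (4, 2, 3, 3), (4, 3, 2, 3), (4, 3, 3, 0), (4, 4, 1, 0), (4, 4, 4, 3)]

theorem mem_LA : ∀ x1 x2 x3 x4 : ZMod 5, (x1, x2, x3, x4) ∈ LA ↔
    (x1 * x4 - x2 * x3 = 1 ∧ inT (x1 + x4) = true) := by
  decide +kernel

theorem nodup_LA : LA.Nodup := by decide +kernel

theorem cnt_LA : ∀ x1 x2 x3 x4 : ZMod 5, x1 * x4 - x2 * x3 = 1 →
    (LA.filter fun a => inT (a.2.2.2 * x1 + a.1 * x4 - a.2.1 * x3 - a.2.2.1 * x2)).length % 2 =
      if inT (x1 + x4) = true then 1 else 0 := by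
  decide +kernel

end Pool.Agent.R710.Par
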