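import Mathlib

/-!
# The Hopf algebra of functions on a finite group
-/

set_option autoImplicit false

open scoped TensorProduct

namespace Pool.Agent.R710.Par

variable (k : Type*) [Field k] (G : Type*) [Group G] [Fintype G] [DecidableEq G]

/-- The functions on a finite group. -/
def Fn : Type _ := G → k

noncomputable instance : CommRing (Fn k G) := inferInstanceAs (CommRing (G → k))
noncomputable instance : Algebra k (Fn k G) := inferInstanceAs (Algebra k (G → k))

variable {G}

/-- The indicator function of `g`. -/
def dl (g : G) : Fn k G := Pi.single g (1 : k)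

/-- The basis of indicator functions. -/
noncomputable def bas : Module.Basis G k (Fn k G) := Pi.basisFun k G

omit [Group G] in
theorem bas_apply (g : G) : bas k g = dl k g := Pi.basisFun_apply k G g

variable {k}

omit [Group G] [Fintype G] in
theorem dl_mul (g h : G) : dl k g * dl k h = if g = h then dl k g else 0 := by
  funext x
  show (Pi.single g (1 : k) : G → k) x * (Pi.single h (1 : k) : G → k) x = _
  split_ifs with hgh
  · subst hgh
    show _ = (Pi.single g (1 : k) : G → k) x
    by_cases hx : x = g
    · subst hx; simp
    · simp [Pi.single_eq_of_ne hx]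
  · show _ = (0 : k)
    by_cases hx : x = g
    · subst hx
      simp [Pi.single_eq_of_ne hgh]
    · simp [Pi.single_eq_of_ne hx]

omit [Group G] in
theorem sum_dl : ∑ g : G, dl k g = 1 := by
  funext x
  show (∑ g : G, dl k g) x = (1 : k)
  rw [show (∑ g : G, dl k g) x = ∑ g : G, (dl k g) x from Finset.sum_apply _ _ _,
    Finset.sum_eq_single x]
  · show (Pi.single x (1 : k) : G → k) x = 1
    simp
  · intro b _ hb
    show (Pi.single b (1 : k) : G → k) x = 0
    exact Pi.single_eq_of_ne hb.symm _
  · intro h; exact absurd (Finset.mem_univ _) h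

/-- Linear maps out of `Fn k G` are determined on indicator functions. -/
theorem lin_ext {M : Type*} [AddCommMonoid M] [Module k M] {f g : Fn k G →ₗ[k] M}
    (h : ∀ x, f (dl k x) = g (dl k x)) : f = g :=
  (bas k).ext fun x => by rw [bas_apply]; exact h x

noncomputable instance : CoalgebraStruct k (Fn k G) where
  comul := (bas k).constr k fun g => ∑ a : G, dl k a ⊗ₜ[k] dl k (a⁻¹ * g)
  counit := (bas k).constr k fun g => if g = 1 then 1 else 0

theorem comul_dl (g : G) :
    Coalgebra.comul (R := k) (dl k g) = ∑ a : G, dl k a ⊗ₜ[k] dl k (a⁻¹ * g) := by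
  show (bas k).constr k (fun g => ∑ a : G, dl k a ⊗ₜ[k] dl k (a⁻¹ * g)) (dl k g) = _
  rw [← bas_apply, Module.Basis.constr_basis]

theorem counit_dl (g : G) :
    Coalgebra.counit (R := k) (dl k g) = if g = 1 then (1 : k) else 0 := by
  show (bas k).constr k (fun g => if g = 1 then (1 : k) else 0) (dl k g) = _
  rw [← bas_apply, Module.Basis.constr_basis]

noncomputable instance : Coalgebra k (Fn k G) where
  coassoc := by
    refine lin_ext fun g => ?_
    simp only [LinearMap.comp_apply, comul_dl, map_sum, LinearMap.rTensor_tmul,
      LinearMap.lTensor_tmul, TensorProduct.sum_tmul, TensorProduct.tmul_sum,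
      LinearEquiv.coe_coe, TensorProduct.assoc_tmul]
    rw [Finset.sum_comm]
    refine Finset.sum_congr rfl fun b _ => ?_
    refine Fintype.sum_equiv (Equiv.mulLeft b⁻¹) _ _ fun a => ?_
    simp only [Equiv.coe_mulLeft]
    congr 3
    group
  rTensor_counit_comp_comul := by
    refine lin_ext fun g => ?_
    simp only [LinearMap.comp_apply, comul_dl, map_sum, LinearMap.rTensor_tmul, counit_dl]
    rw [Finset.sum_eq_single 1]
    · simp
    · intro b _ hb; simp [hb]
    · intro h; exact absurd (Finset.mem_univ _) h
  lTensor_counit_comp_comul := by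
    refine lin_ext fun g => ?_
    simp only [LinearMap.comp_apply, comul_dl, map_sum, LinearMap.lTensor_tmul, counit_dl]
    rw [Finset.sum_eq_single g]
    · simp
    · intro b _ hb
      have : b⁻¹ * g ≠ 1 := by
        intro h
        rw [inv_mul_eq_one] at h
        exact hb h
      simp [this]
    · intro h; exact absurd (Finset.mem_univ _) h

theorem Fn.induction {P : Fn k G → Prop} (x : Fn k G) (he : ∀ p, P (dl k p))
    (hadd : ∀ x y, P x → P y → P (x + y)) (hsmul : ∀ (c : k) x, P x → P (c • x)) : P x := by
  have h0 : P 0 := by
    have := hsmul 0 _ (he 1)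
    rwa [zero_smul] at this
  rw [← (bas k).sum_repr x]
  refine Finset.sum_induction _ _ hadd h0 fun i _ => ?_
  rw [bas_apply]
  exact hsmul _ _ (he i)

noncomputable instance : Bialgebra k (Fn k G) :=
  Bialgebra.mk' k (Fn k G)
    (by
      rw [← sum_dl, map_sum, Finset.sum_eq_single 1]
      · rw [counit_dl, if_pos rfl]
      · intro b _ hb; rw [counit_dl, if_neg hb]
      · intro h; exact absurd (Finset.mem_univ _) h)
    (by
      intro a b
      induction a using Fn.induction with
      | hadd x y hx hy => rw [add_mul, map_add, map_add, add_mul, hx, hy]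
      | hsmul c x hx => rw [smul_mul_assoc, map_smul, map_smul, smul_mul_assoc, hx]
      | he g =>
        induction b using Fn.induction with
        | hadd x y hx hy => rw [mul_add, map_add, map_add, mul_add, hx, hy]
        | hsmul c x hx => rw [mul_smul_comm, map_smul, map_smul, mul_smul_comm, hx]
        | he h =>
          rw [dl_mul, counit_dl, counit_dl]
          by_cases hgh : g = h
          · subst hgh
            rw [if_pos rfl, counit_dl]
            split_ifs <;> simp
          · rw [if_neg hgh, map_zero]
            by_cases hg : g = 1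
            · have : h ≠ 1 := fun hh => hgh (hg.trans hh.symm)
              simp [this]
            · simp [hg])
    (by
      rw [← sum_dl, map_sum]
      simp only [comul_dl]
      rw [Finset.sum_comm, ← one_mul (1 : Fn k G ⊗[k] Fn k G)]
      have : (1 : Fn k G ⊗[k] Fn k G) = ∑ a : G, ∑ b : G, dl k a ⊗ₜ[k] dl k b := by
        rw [Algebra.TensorProduct.one_def, ← sum_dl, TensorProduct.sum_tmul]
        simp only [TensorProduct.tmul_sum]
      rw [one_mul, this]
      refine Finset.sum_congr rfl fun a _ => ?_
      refine Fintype.sum_equiv (Equiv.mulLeft a⁻¹) _ _ fun b => rfl)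
    (by
      intro a b
      induction a using Fn.induction with
      | hadd x y hx hy => rw [add_mul, map_add, map_add, add_mul, hx, hy]
      | hsmul c x hx => rw [smul_mul_assoc, map_smul, map_smul, smul_mul_assoc, hx]
      | he g =>
        induction b using Fn.induction with
        | hadd x y hx hy => rw [mul_add, map_add, map_add, mul_add, hx, hy]
        | hsmul c x hx => rw [mul_smul_comm, map_smul, map_smul, mul_smul_comm, hx]
        | he h =>
          rw [dl_mul, comul_dl, comul_dl, Finset.sum_mul_sum]
          simp only [Algebra.TensorProduct.tmul_mul_tmul, dl_mul]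
          have h1 : ∀ a : G, ∑ b : G, (if a = b then dl k a else 0) ⊗ₜ[k]
              (if a⁻¹ * g = b⁻¹ * h then dl k (a⁻¹ * g) else 0) =
              dl k a ⊗ₜ[k] (if g = h then dl k (a⁻¹ * g) else 0) := by
            intro a
            rw [Finset.sum_eq_single a]
            · simp
            · intro b _ hb; rw [if_neg hb.symm, TensorProduct.zero_tmul]
            · intro h; exact absurd (Finset.mem_univ _) h
          rw [Finset.sum_congr rfl fun a _ => h1 a]
          by_cases hgh : g = h
          · simp only [if_pos hgh]
            exact comul_dl g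
          · simp only [if_neg hgh, TensorProduct.tmul_zero, Finset.sum_const_zero, map_zero])

/-- The antipode. -/
def anti : Fn k G →ₗ[k] Fn k G where
  toFun f := fun g => f g⁻¹
  map_add' _ _ := rfl
  map_smul' _ _ := rfl

omit [Fintype G] in
theorem anti_dl (g : G) : anti (dl k g) = dl k g⁻¹ := by
  funext x
  show (Pi.single g (1 : k) : G → k) x⁻¹ = (Pi.single g⁻¹ (1 : k) : G → k) x
  by_cases hx : x = g⁻¹
  · subst hx; simp
  · rw [Pi.single_eq_of_ne hx, Pi.single_eq_of_ne]
    intro h
    exact hx (by rw [← h, inv_inv])

noncomputable instance : HopfAlgebra k (Fn k G) where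
  antipode := anti
  mul_antipode_rTensor_comul := by
    refine lin_ext fun g => ?_
    simp only [LinearMap.comp_apply, comul_dl, map_sum, LinearMap.rTensor_tmul, anti_dl,
      LinearMap.mul'_apply, dl_mul, counit_dl]
    by_cases hg : g = 1
    · subst hg
      simp only [mul_one, if_true, Algebra.linearMap_apply, map_one]
      rw [← sum_dl]
      exact Fintype.sum_equiv (Equiv.inv G) _ _ fun a => rfl
    · have : ∀ a : G, a⁻¹ ≠ a⁻¹ * g := fun a h => hg (by
        have := h.symm
        rwa [mul_eq_left] at this)
      simp [this, hg]
  mul_antipode_lTensor_comul := by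
    refine lin_ext fun g => ?_
    simp only [LinearMap.comp_apply, comul_dl, map_sum, LinearMap.lTensor_tmul, anti_dl,
      LinearMap.mul'_apply, dl_mul, counit_dl, mul_inv_rev, inv_inv]
    by_cases hg : g = 1
    · subst hg
      simp only [inv_one, one_mul, if_true, Algebra.linearMap_apply, map_one]
      exact sum_dl
    · have : ∀ a : G, a ≠ g⁻¹ * a := fun a h => hg (by
        have := h.symm
        rwa [mul_eq_right, inv_eq_one] at this)
      simp [this, hg]

theorem antipode_dl (g : G) : HopfAlgebra.antipode k (dl k g) = dl k g⁻¹ := anti_dl g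

end Pool.Agent.R710.Par
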