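import Mathlib
import Pool.Agent.R710.Par.Dual

/-!
# The partial Hopf algebra
-/

set_option autoImplicit false

open scoped TensorProduct

namespace Pool.Agent.R710.Par

section defs

variable (k : Type*) [Field k] (H : Type*) [Ring H] [HopfAlgebra k H]

/-- For a linear map `π : H → B` and `h : H` the map `a ⊗ b ↦ π(h a) π(S(b))`. -/
noncomputable def pL {B : Type*} [Ring B] [Algebra k B] (π : H →ₗ[k] B) (h : H) :
    H ⊗[k] H →ₗ[k] B :=
  LinearMap.mul' k B ∘ₗ TensorProduct.map (π ∘ₗ LinearMap.mulLeft k h) (π ∘ₗ HopfAlgebra.antipode k)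

/-- For a linear map `π : H → B` and `h : H` the map `a ⊗ b ↦ π(a) π(S(b) h)`. -/
noncomputable def pR {B : Type*} [Ring B] [Algebra k B] (π : H →ₗ[k] B) (h : H) :
    H ⊗[k] H →ₗ[k] B :=
  LinearMap.mul' k B ∘ₗ TensorProduct.map π (π ∘ₗ LinearMap.mulRight k h ∘ₗ HopfAlgebra.antipode k)

/-- The relations of the partial Hopf algebra: `[1] = 1`,
`[h] [g₁] [S(g₂)] = [h g₁] [S(g₂)]` and `[h₁] [S(h₂)] [g] = [h₁] [S(h₂) g]`. -/
inductive ParRel : TensorAlgebra k H → TensorAlgebra k H → Prop
  | one : ParRel (TensorAlgebra.ι k 1) 1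
  | left (h g : H) : ParRel
      (TensorAlgebra.ι k h * pL k H (TensorAlgebra.ι k) 1 (Coalgebra.comul (R := k) g))
      (pL k H (TensorAlgebra.ι k) h (Coalgebra.comul (R := k) g))
  | right (h g : H) : ParRel
      (pR k H (TensorAlgebra.ι k) 1 (Coalgebra.comul (R := k) h) * TensorAlgebra.ι k g)
      (pR k H (TensorAlgebra.ι k) g (Coalgebra.comul (R := k) h))

/-- The partial Hopf algebra `H_par`. -/
abbrev HPar : Type _ := RingQuot (ParRel k H)

/-- A partial representation. -/
structure IsPartialRep {B : Type*} [Ring B] [Algebra k B] (π : H →ₗ[k] B) : Prop where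
  one : π 1 = 1
  left : ∀ h g : H, π h * pL k H π 1 (Coalgebra.comul (R := k) g) =
    pL k H π h (Coalgebra.comul (R := k) g)
  right : ∀ h g : H, pR k H π 1 (Coalgebra.comul (R := k) h) * π g =
    pR k H π g (Coalgebra.comul (R := k) h)

variable {k H}

theorem lift_pL {B : Type*} [Ring B] [Algebra k B] (π : H →ₗ[k] B) (h : H) (x : H ⊗[k] H) :
    TensorAlgebra.lift k π (pL k H (TensorAlgebra.ι k) h x) = pL k H π h x := by
  induction x with
  | zero => simp
  | add x y hx hy => rw [map_add, map_add, map_add, hx, hy]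
  | tmul a b => simp [pL]

theorem lift_pR {B : Type*} [Ring B] [Algebra k B] (π : H →ₗ[k] B) (h : H) (x : H ⊗[k] H) :
    TensorAlgebra.lift k π (pR k H (TensorAlgebra.ι k) h x) = pR k H π h x := by
  induction x with
  | zero => simp
  | add x y hx hy => rw [map_add, map_add, map_add, hx, hy]
  | tmul a b => simp [pR]

/-- The map of algebras induced by a partial representation. -/
def liftPar {B : Type*} [Ring B] [Algebra k B] {π : H →ₗ[k] B} (hπ : IsPartialRep k H π) :
    HPar k H →ₐ[k] B :=
  RingQuot.liftAlgHom k ⟨TensorAlgebra.lift k π, by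
    intro x y h
    cases h with
    | one => rw [TensorAlgebra.lift_ι_apply, hπ.one, map_one]
    | left h g => rw [map_mul, lift_pL, lift_pL, TensorAlgebra.lift_ι_apply, hπ.left]
    | right h g => rw [map_mul, lift_pR, lift_pR, TensorAlgebra.lift_ι_apply, hπ.right]⟩

theorem liftPar_apply {B : Type*} [Ring B] [Algebra k B] {π : H →ₗ[k] B}
    (hπ : IsPartialRep k H π) (h : H) :
    liftPar hπ (RingQuot.mkAlgHom k (ParRel k H) (TensorAlgebra.ι k h)) = π h := by
  rw [liftPar, RingQuot.liftAlgHom_mkAlgHom_apply, TensorAlgebra.lift_ι_apply]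

theorem range_liftPar {B : Type*} [Ring B] [Algebra k B] {π : H →ₗ[k] B}
    (hπ : IsPartialRep k H π) : (liftPar hπ).range = Algebra.adjoin k (Set.range π) := by
  have h1 : (⊤ : Subalgebra k (HPar k H)) = (⊤ : Subalgebra k (TensorAlgebra k H)).map
      (RingQuot.mkAlgHom k (ParRel k H)) := by
    rw [Algebra.map_top, eq_comm, AlgHom.range_eq_top]
    exact RingQuot.mkAlgHom_surjective k _
  rw [← Algebra.map_top, h1, ← TensorAlgebra.adjoin_range_ι, AlgHom.map_adjoin,
    AlgHom.map_adjoin, ← Set.range_comp, ← Set.range_comp]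
  congr 2
  funext h
  exact liftPar_apply hπ h

end defs

/-- A central element of square zero of a semisimple ring is zero. -/
theorem eq_zero_of_central {R : Type*} [Ring R] [IsSemisimpleRing R] {y : R}
    (hy : ∀ r, r * y = y * r) (h2 : y * y = 0) : y = 0 := by
  obtain ⟨J, hJ⟩ := exists_isCompl (Submodule.span R {y} : Submodule R R)
  have h1 : (1 : R) ∈ Submodule.span R {y} ⊔ J := by rw [hJ.sup_eq_top]; trivial
  obtain ⟨e, he, e', he', hee⟩ := Submodule.mem_sup.1 h1
  obtain ⟨r, rfl⟩ := Submodule.mem_span_singleton.1 he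
  have h3 : y * (r • y) = 0 := by
    rw [smul_eq_mul, ← mul_assoc, ← hy, mul_assoc, h2, mul_zero]
  have h4 : y = y * e' := by
    calc y = y * (r • y + e') := by rw [hee, mul_one]
      _ = y * e' := by rw [mul_add, h3, zero_add]
  have h5 : y ∈ Submodule.span R {y} ⊓ J := by
    refine ⟨Submodule.mem_span_singleton_self y, ?_⟩
    rw [h4]
    exact J.smul_mem y he'
  rw [hJ.inf_eq_bot] at h5
  exact (Submodule.mem_bot R).1 h5

/-- If the algebra generated by the image of a partial representation contains a nonzero element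
of square zero that commutes with the image then the partial Hopf algebra is not semisimple. -/
theorem not_semisimple {k : Type*} [Field k] {H : Type*} [Ring H] [HopfAlgebra k H] {B : Type*}
    [Ring B] [Algebra k B] {π : H →ₗ[k] B} (hπ : IsPartialRep k H π) {y : B}
    (hy : y ∈ Algebra.adjoin k (Set.range π)) (hc : ∀ h, π h * y = y * π h) (h2 : y * y = 0)
    (h0 : y ≠ 0) : ¬ IsSemisimpleRing (HPar k H) := by
  intro hss
  rw [← range_liftPar hπ] at hy
  have : IsSemisimpleRing (liftPar hπ).range :=
    RingHom.isSemisimpleRing_of_surjective ((liftPar hπ).rangeRestrict : HPar k H →+* _)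
      (liftPar hπ).rangeRestrict_surjective
  have hcent : ∀ r : (liftPar hπ).range, r * ⟨y, hy⟩ = ⟨y, hy⟩ * r := by
    rintro ⟨r, hr⟩
    apply Subtype.ext
    show r * y = y * r
    rw [range_liftPar hπ] at hr
    induction hr using Algebra.adjoin_induction with
    | mem x hx =>
      obtain ⟨h, rfl⟩ := hx
      exact hc h
    | algebraMap r => exact Algebra.commutes r y
    | add a b _ _ ha hb => rw [add_mul, mul_add, ha, hb]
    | mul a b _ _ ha hb => rw [mul_assoc, hb, ← mul_assoc, ha, mul_assoc]
  have h3 := eq_zero_of_central hcent (Subtype.ext h2)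
  exact h0 (congrArg Subtype.val h3)

end Pool.Agent.R710.Par
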