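import Mathlib
import Pool.Agent.R710.Par.HPar

/-!
# Partial representations from central idempotents
-/

set_option autoImplicit false

open scoped TensorProduct

namespace Pool.Agent.R710.Par

section abstractRep

variable {k : Type*} [Field k] {G : Type*} [Group G] [Fintype G] [DecidableEq G]
  {B : Type*} [Ring B] [Algebra k B]

/-- The element `∑ a, P(δ_a) T P(δ_{c⁻¹ a})`. -/
noncomputable def EE (P : Fn k G →ₐ[k] B) (T : B) (c : G) : B :=
  ∑ a : G, P (dl k a) * T * P (dl k (c⁻¹ * a))

/-- `h ↦ T P(h) T + ε(h) (1 - T)` -/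
noncomputable def piT (P : Fn k G →ₐ[k] B) (T : B) : Fn k G →ₗ[k] B :=
  LinearMap.mulRight k T ∘ₗ LinearMap.mulLeft k T ∘ₗ P.toLinearMap +
    LinearMap.toSpanSingleton k B (1 - T) ∘ₗ Coalgebra.counit

theorem piT_apply (P : Fn k G →ₐ[k] B) (T : B) (h : Fn k G) :
    piT P T h = T * P h * T + Coalgebra.counit (R := k) h • (1 - T) := by
  simp [piT]

variable {P : Fn k G →ₐ[k] B} {T : B} (hT : T * T = T) (hE : ∀ c, T * EE P T c = EE P T c * T)

include hT

theorem corner_mul (x y : B) (c d : k) :
    (T * x * T + c • (1 - T)) * (T * y * T + d • (1 - T)) =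
      T * x * T * y * T + (c * d) • (1 - T) := by
  have h1 : T * (1 - T) = 0 := by rw [mul_sub, mul_one, hT, sub_self]
  have h2 : (1 - T) * T = 0 := by rw [sub_mul, one_mul, hT, sub_self]
  have h3 : (1 - T) * (1 - T) = 1 - T := by rw [mul_sub, mul_one, h2, sub_zero]
  calc (T * x * T + c • (1 - T)) * (T * y * T + d • (1 - T))
      = T * x * (T * T) * y * T + d • (T * x * (T * (1 - T))) + c • (((1 - T) * T) * y * T) +
        (c * d) • ((1 - T) * (1 - T)) := by
        rw [add_mul, mul_add, mul_add, mul_smul_comm, smul_mul_assoc, smul_mul_smul_comm]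
        noncomm_ring
    _ = _ := by rw [hT, h1, h2, h3]; simp

theorem sum_piT (x y : Fn k G) (c : G) :
    ∑ a : G, piT P T (x * dl k a) * piT P T (dl k (c⁻¹ * a) * y) =
      T * (P x * EE P T c * P y) * T +
        (Coalgebra.counit (R := k) x * Coalgebra.counit (R := k) (dl k c) *
          Coalgebra.counit (R := k) y) • (1 - T) := by
  have h1 : ∀ a : G, piT P T (x * dl k a) * piT P T (dl k (c⁻¹ * a) * y) =
      T * (P x * (P (dl k a) * T * P (dl k (c⁻¹ * a))) * P y) * T +
        (Coalgebra.counit (R := k) x * (Coalgebra.counit (R := k) (dl k a) *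
          Coalgebra.counit (R := k) (dl k (c⁻¹ * a))) * Coalgebra.counit (R := k) y) •
          (1 - T) := by
    intro a
    rw [piT_apply, piT_apply, corner_mul hT, map_mul, map_mul, Bialgebra.counit_mul,
      Bialgebra.counit_mul]
    congr 1
    · noncomm_ring
    · congr 1; ring
  rw [Finset.sum_congr rfl fun a _ => h1 a, Finset.sum_add_distrib]
  congr 1
  · rw [EE, Finset.mul_sum, Finset.sum_mul, Finset.mul_sum, Finset.sum_mul]
  · rw [← Finset.sum_smul, ← Finset.sum_mul, ← Finset.mul_sum]
    congr 3
    simp only [counit_dl]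
    rw [Finset.sum_eq_single 1]
    · simp [inv_eq_one]
    · intro b _ hb; simp [hb]
    · intro h; exact absurd (Finset.mem_univ _) h

omit hT in
theorem pL_comul (π : Fn k G →ₗ[k] B) (h : Fn k G) (c : G) :
    pL k (Fn k G) π h (Coalgebra.comul (R := k) (dl k c)) =
      ∑ a : G, π (h * dl k a) * π (dl k (c⁻¹ * a)) := by
  rw [comul_dl, map_sum]
  refine Finset.sum_congr rfl fun a _ => ?_
  simp [pL, antipode_dl]

omit hT in
theorem pR_comul (π : Fn k G →ₗ[k] B) (h : Fn k G) (c : G) :
    pR k (Fn k G) π h (Coalgebra.comul (R := k) (dl k c)) =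
      ∑ a : G, π (dl k a) * π (dl k (c⁻¹ * a) * h) := by
  rw [comul_dl, map_sum]
  refine Finset.sum_congr rfl fun a _ => ?_
  simp [pR, antipode_dl]

theorem pL_piT (h : Fn k G) (c : G) :
    pL k (Fn k G) (piT P T) h (Coalgebra.comul (R := k) (dl k c)) =
      T * (P h * EE P T c) * T +
        (Coalgebra.counit (R := k) h * Coalgebra.counit (R := k) (dl k c)) • (1 - T) := by
  rw [pL_comul]
  have := sum_piT (P := P) hT h 1 c
  simp only [mul_one, map_one, Bialgebra.counit_one] at this
  exact this

theorem pR_piT (h : Fn k G) (c : G) :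
    pR k (Fn k G) (piT P T) h (Coalgebra.comul (R := k) (dl k c)) =
      T * (EE P T c * P h) * T +
        (Coalgebra.counit (R := k) (dl k c) * Coalgebra.counit (R := k) h) • (1 - T) := by
  rw [pR_comul]
  have := sum_piT (P := P) hT 1 h c
  simp only [one_mul, map_one, Bialgebra.counit_one] at this
  exact this

include hE

theorem isPartialRep_piT : IsPartialRep k (Fn k G) (piT P T) where
  one := by
    rw [piT_apply, map_one, mul_one, hT, Bialgebra.counit_one, one_smul]
    abel
  left h g := by
    induction g using Fn.induction with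
    | hadd x y hx hy => rw [map_add, map_add, map_add, mul_add, hx, hy]
    | hsmul c x hx => rw [map_smul, map_smul, map_smul, mul_smul_comm, hx]
    | he c =>
      rw [pL_piT hT, pL_piT hT, piT_apply, corner_mul hT, map_one, one_mul,
        Bialgebra.counit_one, one_mul]
      congr 1
      calc T * P h * T * EE P T c * T = T * P h * (T * EE P T c) * T := by noncomm_ring
        _ = T * P h * EE P T c * (T * T) := by rw [hE]; noncomm_ring
        _ = _ := by rw [hT]; noncomm_ring
  right h g := by
    induction h using Fn.induction with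
    | hadd x y hx hy => rw [map_add, map_add, map_add, add_mul, hx, hy]
    | hsmul c x hx => rw [map_smul, map_smul, map_smul, smul_mul_assoc, hx]
    | he c =>
      rw [pR_piT hT, pR_piT hT, piT_apply, corner_mul hT, map_one, mul_one,
        Bialgebra.counit_one, mul_one]
      congr 1
      calc T * EE P T c * T * P g * T = (T * EE P T c) * T * P g * T := by noncomm_ring
        _ = EE P T c * (T * T) * P g * T := by rw [hE]; noncomm_ring
        _ = (EE P T c * T) * P g * T := by rw [hT]
        _ = _ := by rw [← hE]; noncomm_ring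

omit hE in
theorem EE_mem (c : G) (hc : c ≠ 1) :
    T * EE P T c * T ∈ Algebra.adjoin k (Set.range (piT P T)) := by
  have h1 := pL_piT (P := P) hT 1 c
  rw [map_one, one_mul, counit_dl, if_neg hc, mul_zero, zero_smul, add_zero] at h1
  rw [← h1, pL_comul]
  exact Subalgebra.sum_mem _ fun a _ => Subalgebra.mul_mem _
    (Algebra.subset_adjoin ⟨_, rfl⟩) (Algebra.subset_adjoin ⟨_, rfl⟩)

end abstractRep

end Pool.Agent.R710.Par
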