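import Mathlib
import Pool.Agent.R710.Par.Rep

/-!
# Central idempotents of group algebras and partial representations of function algebras
-/

set_option autoImplicit false

open scoped TensorProduct

namespace Pool.Agent.R710.Par

variable {k : Type*} [Field k] {Γ : Type*} [Group Γ] [Fintype Γ] [DecidableEq Γ]

/-- left translation -/
def L (γ : Γ) : Module.End k (Γ → k) := LinearMap.funLeft k k (fun x => γ⁻¹ * x)

omit [Fintype Γ] [DecidableEq Γ] in
theorem L_apply (γ : Γ) (m : Γ → k) (x : Γ) : L γ m x = m (γ⁻¹ * x) := rfl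

omit [Fintype Γ] [DecidableEq Γ] in
theorem L_mul (γ δ : Γ) : (L γ : Module.End k (Γ → k)) * L δ = L (γ * δ) := by
  refine LinearMap.ext fun m => funext fun x => ?_
  show m (δ⁻¹ * (γ⁻¹ * x)) = m ((γ * δ)⁻¹ * x)
  rw [mul_inv_rev, mul_assoc]

omit [Fintype Γ] [DecidableEq Γ] in
theorem L_one : (L (1 : Γ) : Module.End k (Γ → k)) = 1 := by
  refine LinearMap.ext fun m => funext fun x => ?_
  show m ((1 : Γ)⁻¹ * x) = m x
  simp

/-- The operator of an element of the group algebra. -/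
def op (F : Γ → k) : Module.End k (Γ → k) := ∑ γ : Γ, F γ • L γ

omit [DecidableEq Γ] in
theorem op_apply (F : Γ → k) (m : Γ → k) (x : Γ) :
    op F m x = ∑ γ : Γ, F γ * m (γ⁻¹ * x) := by
  simp [op, LinearMap.sum_apply, Finset.sum_apply, L_apply]

omit [DecidableEq Γ] in
theorem op_mul_L {F : Γ → k} (hF : ∀ g x, F (g * x * g⁻¹) = F x) (δ : Γ) :
    op F * L δ = L δ * op F := by
  rw [op, Finset.sum_mul, Finset.mul_sum]
  refine Fintype.sum_equiv (MulAut.conj δ⁻¹).toEquiv _ _ fun γ => ?_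
  have h1 : F ((MulAut.conj δ⁻¹).toEquiv γ) = F γ := hF δ⁻¹ γ
  rw [h1, smul_mul_assoc, mul_smul_comm, L_mul, L_mul]
  congr 2
  simp [mul_assoc]

omit [DecidableEq Γ] in
theorem op_mul_op {F F' : Γ → k} (hF : ∀ g x, F (g * x * g⁻¹) = F x) :
    op F * op F' = op F' * op F := by
  conv_lhs => rw [op.eq_def F']
  conv_rhs => rw [op.eq_def F']
  rw [Finset.sum_mul, Finset.mul_sum]
  exact Finset.sum_congr rfl fun γ _ => by rw [mul_smul_comm, smul_mul_assoc, op_mul_L hF]

omit [DecidableEq Γ] in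
theorem op_sq {F : Γ → k} (h : ∀ x, ∑ a : Γ, F a * F (a⁻¹ * x) = F x) :
    op F * op F = op F := by
  refine LinearMap.ext fun m => funext fun x => ?_
  show op F (op F m) x = op F m x
  simp only [op_apply]
  simp only [Finset.mul_sum]
  calc ∑ a : Γ, ∑ b : Γ, F a * (F b * m (b⁻¹ * (a⁻¹ * x)))
      = ∑ a : Γ, ∑ c : Γ, F a * (F (a⁻¹ * c) * m (c⁻¹ * x)) := by
        refine Finset.sum_congr rfl fun a _ => ?_
        refine Fintype.sum_equiv (Equiv.mulLeft a) _ _ fun b => ?_
        simp [mul_assoc]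
    _ = ∑ c : Γ, (∑ a : Γ, F a * F (a⁻¹ * c)) * m (c⁻¹ * x) := by
        rw [Finset.sum_comm]
        refine Finset.sum_congr rfl fun c _ => ?_
        rw [Finset.sum_mul]
        exact Finset.sum_congr rfl fun a _ => by ring
    _ = _ := Finset.sum_congr rfl fun c _ => by rw [h]

section quotient

variable (N : Subgroup Γ) [N.Normal] [Fintype (Γ ⧸ N)] [DecidableEq (Γ ⧸ N)]

/-- Multiplication by functions on the quotient. -/
def PN : Fn k (Γ ⧸ N) →ₐ[k] Module.End k (Γ → k) where
  toFun h :=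
    { toFun := fun m x => h (x : Γ ⧸ N) * m x
      map_add' := fun m m' => funext fun x => mul_add _ _ _
      map_smul' := fun c m => funext fun x => by
        simp only [Pi.smul_apply, smul_eq_mul, RingHom.id_apply]
        ring }
  map_one' := LinearMap.ext fun m => funext fun x => one_mul _
  map_mul' h h' := LinearMap.ext fun m => funext fun x => mul_assoc _ _ _
  map_zero' := LinearMap.ext fun m => funext fun x => zero_mul _
  map_add' h h' := LinearMap.ext fun m => funext fun x => add_mul _ _ _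
  commutes' r := LinearMap.ext fun m => funext fun x => rfl

theorem PN_apply (h : Fn k (Γ ⧸ N)) (m : Γ → k) (x : Γ) :
    PN N h m x = h (x : Γ ⧸ N) * m x := rfl

theorem dl_apply (g h : Γ ⧸ N) : (dl k g : Γ ⧸ N → k) h = if g = h then 1 else 0 := by
  show (Pi.single g (1 : k) : Γ ⧸ N → k) h = _
  rw [Pi.single_apply]
  simp only [eq_comm]

theorem EE_eq (F : Γ → k) (c : Γ ⧸ N) :
    EE (PN N) (op F) c =
      op (fun γ : Γ => if (QuotientGroup.mk γ : Γ ⧸ N) = c then F γ else 0) := by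
  refine LinearMap.ext fun m => funext fun x => ?_
  rw [EE, LinearMap.sum_apply, Finset.sum_apply]
  have h1 : ∀ a : Γ ⧸ N, (PN N (dl k a) * op F * PN N (dl k (c⁻¹ * a))) m x =
      (if a = (x : Γ ⧸ N) then ∑ γ : Γ, F γ *
        ((if c⁻¹ * a = ((γ⁻¹ * x : Γ) : Γ ⧸ N) then 1 else 0) * m (γ⁻¹ * x)) else 0) := by
    intro a
    show PN N (dl k a) (op F (PN N (dl k (c⁻¹ * a)) m)) x = _
    rw [PN_apply, op_apply, dl_apply]
    simp only [PN_apply, dl_apply]
    split_ifs <;> simp
  rw [Finset.sum_congr rfl fun a _ => h1 a, Finset.sum_ite_eq', if_pos (Finset.mem_univ _),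
    op_apply]
  refine Finset.sum_congr rfl fun γ _ => ?_
  have h2 : c⁻¹ * (x : Γ ⧸ N) = ((γ⁻¹ * x : Γ) : Γ ⧸ N) ↔ (γ : Γ ⧸ N) = c := by
    rw [QuotientGroup.mk_mul, QuotientGroup.mk_inv, mul_left_inj, inv_inj, eq_comm]
  by_cases h : (γ : Γ ⧸ N) = c
  · rw [if_pos h, if_pos (h2.2 h), one_mul]
  · rw [if_neg h, if_neg (fun h' => h (h2.1 h')), zero_mul, mul_zero]

theorem EE_eq_L {F : Γ → k} {a : Γ}
    (ha : ∀ γ : Γ, (γ : Γ ⧸ N) = (a : Γ ⧸ N) → F γ = if γ = a then 1 else 0) :
    EE (PN N) (op F) (a : Γ ⧸ N) = L a := by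
  rw [EE_eq]
  refine LinearMap.ext fun m => funext fun x => ?_
  rw [op_apply, Finset.sum_eq_single a]
  · rw [if_pos rfl, ha a rfl, if_pos rfl, one_mul, L_apply]
  · intro b _ hb
    split_ifs with h
    · rw [ha b h, if_neg hb, zero_mul]
    · rw [zero_mul]
  · intro h; exact absurd (Finset.mem_univ _) h

/-- The main criterion. -/
theorem not_semisimple_of [CharP k 2] {F : Γ → k} (hF : ∀ g x, F (g * x * g⁻¹) = F x)
    (hidem : ∀ x, ∑ a : Γ, F a * F (a⁻¹ * x) = F x) {z a b c : Γ} (hzN : z ∈ N)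
    (hz2 : z * z = 1) (habc : a * b = z * c)
    (ha1 : a ∉ N) (hb1 : b ∉ N) (hc1 : c ∉ N)
    (ha : ∀ γ : Γ, (γ : Γ ⧸ N) = (a : Γ ⧸ N) → F γ = if γ = a then 1 else 0)
    (hb : ∀ γ : Γ, (γ : Γ ⧸ N) = (b : Γ ⧸ N) → F γ = if γ = b then 1 else 0)
    (hc : ∀ γ : Γ, (γ : Γ ⧸ N) = (c : Γ ⧸ N) → F γ = if γ = c then 1 else 0)
    (hc' : ∀ γ : Γ, (γ : Γ ⧸ N) = ((c⁻¹ : Γ) : Γ ⧸ N) → F γ = if γ = c⁻¹ then 1 else 0)
    {x : Γ} (hx : F (z⁻¹ * x) ≠ F x) :
    ¬ IsSemisimpleRing (HPar k (Fn k (Γ ⧸ N))) := by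
  have hT := op_sq hidem
  have hE : ∀ c, op F * EE (PN N) (op F) c = EE (PN N) (op F) c * op F := by
    intro c
    rw [EE_eq]
    exact op_mul_op hF
  have hTL := op_mul_L hF
  have hne : ∀ {u : Γ}, u ∉ N → (u : Γ ⧸ N) ≠ 1 := fun hu h =>
    hu ((QuotientGroup.eq_one_iff _).1 h)
  have hcN : c⁻¹ ∉ N := fun h => hc1 (by simpa using N.inv_mem h)
  have hmem : ∀ {u : Γ}, u ∉ N → (∀ γ : Γ, (γ : Γ ⧸ N) = (u : Γ ⧸ N) → F γ =
      if γ = u then 1 else 0) → L u * op F ∈ Algebra.adjoin k (Set.range (piT (PN N) (op F))) := by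
    intro u hu hu'
    have h1 := EE_mem (P := PN N) hT (u : Γ ⧸ N) (hne hu)
    rw [EE_eq_L N hu', hTL, mul_assoc, hT] at h1
    exact h1
  have hLT : ∀ u v : Γ, (L u * op F) * (L v * op F) = L (u * v) * op F := by
    intro u v
    rw [← L_mul]
    calc (L u * op F) * (L v * op F) = L u * (op F * L v) * op F := by noncomm_ring
      _ = L u * L v * (op F * op F) := by rw [hTL]; noncomm_ring
      _ = _ := by rw [hT]
  have hy : L z * op F - op F ∈ Algebra.adjoin k (Set.range (piT (PN N) (op F))) := by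
    have h1 : L z * op F = (L a * op F) * (L b * op F) * (L c⁻¹ * op F) := by
      rw [hLT, hLT, habc, mul_assoc, mul_inv_cancel, mul_one]
    have h2 : op F = (L c * op F) * (L c⁻¹ * op F) := by
      rw [hLT, mul_inv_cancel, L_one, one_mul]
    have m1 := Subalgebra.mul_mem _ (Subalgebra.mul_mem _ (hmem ha1 ha) (hmem hb1 hb))
      (hmem hcN hc')
    have m2 := Subalgebra.mul_mem _ (hmem hc1 hc) (hmem hcN hc')
    rw [← h1] at m1
    rw [← h2] at m2
    exact Subalgebra.sub_mem _ m1 m2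
  refine not_semisimple (isPartialRep_piT hT hE) hy ?_ ?_ ?_
  · intro h
    have hPz : PN N h * L z = L z * PN N h := by
      refine LinearMap.ext fun m => funext fun x => ?_
      show h (x : Γ ⧸ N) * m (z⁻¹ * x) = h ((z⁻¹ * x : Γ) : Γ ⧸ N) * m (z⁻¹ * x)
      have : ((z⁻¹ * x : Γ) : Γ ⧸ N) = (x : Γ ⧸ N) := by
        rw [QuotientGroup.mk_mul, (QuotientGroup.eq_one_iff _).2 (N.inv_mem hzN), one_mul]
      rw [this]
    have hy' : L z * op F - op F = (L z - 1) * op F := by rw [sub_mul, one_mul]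
    have c1 : op F * (L z - 1) = (L z - 1) * op F := by rw [mul_sub, sub_mul, hTL, mul_one, one_mul]
    have c2 : PN N h * (L z - 1) = (L z - 1) * PN N h := by
      rw [mul_sub, sub_mul, hPz, mul_one, one_mul]
    rw [piT_apply, hy', add_mul, mul_add]
    generalize (L z - 1 : Module.End k (Γ → k)) = D at c1 c2 ⊢
    congr 1
    · calc op F * PN N h * op F * (D * op F)
          = op F * PN N h * (op F * D) * op F := by noncomm_ring
        _ = op F * (PN N h * D) * (op F * op F) := by rw [c1]; noncomm_ring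
        _ = (op F * D) * PN N h * (op F * op F) := by rw [c2]; noncomm_ring
        _ = D * op F * PN N h * (op F * op F) := by rw [c1]
        _ = D * (op F * op F) * PN N h * op F := by rw [hT]
        _ = _ := by noncomm_ring
    · rw [smul_mul_assoc, mul_smul_comm]
      congr 1
      rw [sub_mul, one_mul, mul_sub, mul_one, ← mul_assoc, c1]
  · have hy' : L z * op F - op F = (L z - 1) * op F := by rw [sub_mul, one_mul]
    have c1 : op F * (L z - 1) = (L z - 1) * op F := by rw [mul_sub, sub_mul, hTL, mul_one, one_mul]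
    have h2 : (L z - 1 : Module.End k (Γ → k)) * (L z - 1) = 0 := by
      have h3 : (L z : Module.End k (Γ → k)) * L z = 1 := by rw [L_mul, hz2, L_one]
      have h4 : ∀ u : Module.End k (Γ → k), u + u = 0 := fun u => by
        rw [← two_smul k u, show (2 : k) = 0 from CharTwo.two_eq_zero, zero_smul]
      calc (L z - 1 : Module.End k (Γ → k)) * (L z - 1) = L z * L z + 1 - (L z + L z) := by
            rw [sub_mul, one_mul, mul_sub, mul_one]; abel
        _ = 1 + 1 - (L z + L z) := by rw [h3]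
        _ = 0 := by rw [h4, h4, sub_zero]
    rw [hy']
    generalize (L z - 1 : Module.End k (Γ → k)) = D at c1 h2 ⊢
    calc (D * op F) * (D * op F)
        = D * (op F * D) * op F := by noncomm_ring
      _ = D * D * (op F * op F) := by rw [c1]; noncomm_ring
      _ = 0 := by rw [h2, zero_mul]
  · intro h0
    have h1 : ∀ x : Γ, op F (Pi.single 1 1) x = F x := by
      intro x
      rw [op_apply, Finset.sum_eq_single x]
      · simp
      · intro b _ hb
        have : b⁻¹ * x ≠ 1 := by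
          intro h
          rw [inv_mul_eq_one] at h
          exact hb h
        rw [Pi.single_eq_of_ne this, mul_zero]
      · intro h; exact absurd (Finset.mem_univ _) h
    have h2 := congrFun (congrArg (fun u : Module.End k (Γ → k) => u (Pi.single 1 1)) h0) x
    apply hx
    have h3 : L z (op F (Pi.single 1 1)) x - op F (Pi.single 1 1) x = 0 := h2
    rw [L_apply, h1, h1] at h3
    exact sub_eq_zero.1 h3

end quotient

end Pool.Agent.R710.Par
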