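import Mathlib
import Pool.Agent.R710.Par.Grp
import Pool.Agent.R710.Par.Count

/-!
# The counterexample
-/

set_option autoImplicit false

namespace Pool.Agent.R710.Par

instance : Fact (Nat.Prime 5) := ⟨by norm_num⟩

/-- The group `SL(2,5)`. -/
abbrev Γ5 : Type := Matrix.SpecialLinearGroup (Fin 2) (ZMod 5)

/-- A matrix as a quadruple. -/
def toQ (a : Γ5) : Q := (a.1 0 0, a.1 0 1, a.1 1 0, a.1 1 1)

theorem toQ_inj : Function.Injective toQ := by
  intro a b h
  simp only [toQ, Prod.mk.injEq] at h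
  apply Subtype.ext
  ext i j
  fin_cases i <;> fin_cases j
  · exact h.1
  · exact h.2.1
  · exact h.2.2.1
  · exact h.2.2.2

theorem det_eq (a : Γ5) : a.1 0 0 * a.1 1 1 - a.1 0 1 * a.1 1 0 = 1 := by
  have := a.2
  rwa [Matrix.det_fin_two] at this

/-- The trace. -/
def tr (a : Γ5) : ZMod 5 := a.1 0 0 + a.1 1 1

theorem tr_eq (a : Γ5) : tr a = Matrix.trace a.1 := by
  rw [Matrix.trace_fin_two]; rfl

theorem tr_conj (g x : Γ5) : tr (g * x * g⁻¹) = tr x := by
  rw [tr_eq, tr_eq, Matrix.SpecialLinearGroup.coe_mul, Matrix.trace_mul_comm,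
    ← Matrix.SpecialLinearGroup.coe_mul, ← mul_assoc, inv_mul_cancel, one_mul]

theorem tr_inv_mul (a x : Γ5) : tr (a⁻¹ * x) =
    a.1 1 1 * x.1 0 0 + a.1 0 0 * x.1 1 1 - a.1 0 1 * x.1 1 0 - a.1 1 0 * x.1 0 1 := by
  rw [tr, Matrix.SpecialLinearGroup.coe_mul, Matrix.SpecialLinearGroup.coe_inv,
    Matrix.adjugate_fin_two]
  simp [Matrix.mul_apply, Fin.sum_univ_two]
  ring

section

variable (k : Type*) [Field k] [CharP k 2]

/-- The indicator function of the elements of trace `4` or `2`. -/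
def FA (x : Γ5) : k := if inT (tr x) = true then 1 else 0

/-- The class function. -/
def FF (x : Γ5) : k := FA k x + if x = 1 then 1 else 0

theorem FA_conv (x : Γ5) : ∑ a : Γ5, FA k a * FA k (a⁻¹ * x) = FA k x := by
  have h1 : ∀ a : Γ5, FA k a * FA k (a⁻¹ * x) =
      if inT (tr a) = true ∧ inT (tr (a⁻¹ * x)) = true then 1 else 0 := by
    intro a
    rw [FA, FA]
    split_ifs <;> simp_all
  rw [Finset.sum_congr rfl fun a _ => h1 a, Finset.sum_boole]
  have h2 : (Finset.univ.filter fun a : Γ5 => inT (tr a) = true ∧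
      inT (tr (a⁻¹ * x)) = true).card = (LA.filter fun a => inT (a.2.2.2 * x.1 0 0 +
        a.1 * x.1 1 1 - a.2.1 * x.1 1 0 - a.2.2.1 * x.1 0 1)).length := by
    rw [← List.toFinset_card_of_nodup (nodup_LA.filter _)]
    refine Finset.card_bij (fun a _ => toQ a) ?_ ?_ ?_
    · intro a ha
      rw [Finset.mem_filter] at ha
      rw [List.mem_toFinset, List.mem_filter]
      refine ⟨(mem_LA _ _ _ _).2 ⟨det_eq a, ha.2.1⟩, ?_⟩
      rw [← ha.2.2, tr_inv_mul]
      rfl
    · intro a _ b _ h; exact toQ_inj h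
    · intro b hb
      rw [List.mem_toFinset, List.mem_filter] at hb
      obtain ⟨b1, b2, b3, b4⟩ := b
      have h3 := (mem_LA _ _ _ _).1 hb.1
      obtain ⟨m, hm⟩ : ∃ m : Γ5, m.1 = !![b1, b2; b3, b4] :=
        ⟨⟨!![b1, b2; b3, b4], by rw [Matrix.det_fin_two_of]; exact h3.1⟩, rfl⟩
      have e1 : m.1 0 0 = b1 := by rw [hm]; rfl
      have e2 : m.1 0 1 = b2 := by rw [hm]; rfl
      have e3 : m.1 1 0 = b3 := by rw [hm]; rfl
      have e4 : m.1 1 1 = b4 := by rw [hm]; rfl
      refine ⟨m, ?_, ?_⟩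
      · rw [Finset.mem_filter]
        refine ⟨Finset.mem_univ _, ?_, ?_⟩
        · rw [tr, e1, e4]; exact h3.2
        · rw [tr_inv_mul, e1, e2, e3, e4]
          exact hb.2
      · rw [toQ, e1, e2, e3, e4]
  rw [h2, CharP.cast_eq_mod k 2, cnt_LA _ _ _ _ (det_eq x), FA, tr]
  split_ifs <;> simp

theorem FF_conv (x : Γ5) : ∑ a : Γ5, FF k a * FF k (a⁻¹ * x) = FF k x := by
  have h1 : ∀ a : Γ5, FF k a * FF k (a⁻¹ * x) = FA k a * FA k (a⁻¹ * x) +
      (if a = 1 then FA k (a⁻¹ * x) else 0) + (if a = x then FA k a else 0) +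
      (if a = 1 then (if a⁻¹ * x = 1 then 1 else 0) else 0) := by
    intro a
    have h2 : a⁻¹ * x = 1 ↔ a = x := inv_mul_eq_one
    rw [FF, FF]
    simp only [h2]
    split_ifs <;> ring
  rw [Finset.sum_congr rfl fun a _ => h1 a, Finset.sum_add_distrib, Finset.sum_add_distrib,
    Finset.sum_add_distrib, FA_conv, Finset.sum_ite_eq' Finset.univ 1,
    Finset.sum_ite_eq' Finset.univ x, Finset.sum_ite_eq' Finset.univ 1]
  simp only [Finset.mem_univ, if_true, inv_one, one_mul]
  rw [FF]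
  have : FA k x + FA k x = 0 := by
    rw [← two_mul, show (2 : k) = 0 from CharTwo.two_eq_zero, zero_mul]
  rw [this, zero_add]

omit [CharP k 2] in
theorem FF_conj (g x : Γ5) : FF k (g * x * g⁻¹) = FF k x := by
  rw [FF, FF, FA, FA, tr_conj]
  simp only [conj_eq_one_iff]

end

/-- The center. -/
abbrev N5 : Subgroup Γ5 := Subgroup.center Γ5

theorem mem_N5 (x : Γ5) : x ∈ N5 ↔ x = 1 ∨ x = -1 := by
  rw [Matrix.SpecialLinearGroup.mem_center_iff]
  constructor
  · rintro ⟨r, hr, hx⟩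
    have h1 : ∀ r : ZMod 5, r ^ Fintype.card (Fin 2) = 1 → r = 1 ∨ r = -1 := by decide
    rcases h1 r hr with rfl | rfl
    · left
      apply Subtype.ext
      rw [← hx]
      simp
    · right
      apply Subtype.ext
      rw [← hx]
      ext i j
      fin_cases i <;> fin_cases j <;> simp
  · rintro (rfl | rfl)
    · exact ⟨1, by simp, by simp⟩
    · refine ⟨-1, by simp, ?_⟩
      ext i j
      fin_cases i <;> fin_cases j <;> simp

section

variable (k : Type*) [Field k] [CharP k 2]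

omit [CharP k 2] in
theorem FF_coset {a : Γ5} (h1 : inT (tr a) = true) (h2 : a ≠ 1) (h3 : inT (tr (-a)) = false)
    (h4 : -a ≠ 1) (γ : Γ5) (h : (γ : Γ5 ⧸ N5) = (a : Γ5 ⧸ N5)) :
    FF k γ = if γ = a then 1 else 0 := by
  rw [QuotientGroup.eq, mem_N5, inv_mul_eq_one] at h
  rcases h with rfl | h
  · rw [FF, FA, if_pos h1, if_neg h2, if_pos rfl, add_zero]
  · have h5 : γ = -a := by
      rw [inv_mul_eq_iff_eq_mul] at h
      rw [h]; simp
    have h6 : -a ≠ a := by
      intro h7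
      rw [h7, h1] at h3
      exact absurd h3 (by decide)
    rw [h5, FF, FA, h3, if_neg (by decide), if_neg h4, if_neg h6, add_zero]

/-- first element -/
def ea : Γ5 := ⟨!![0, 4; 1, 4], by decide⟩
/-- second element -/
def eb : Γ5 := ⟨!![0, 1; 4, 4], by decide⟩
/-- third element -/
def ec : Γ5 := ⟨!![4, 4; 4, 3], by decide⟩

theorem main : ¬ IsSemisimpleRing (HPar k (Fn k (Γ5 ⧸ N5))) := by
  classical
  refine not_semisimple_of (F := FF k) N5 (FF_conj k) (FF_conv k) (z := -1) (a := ea) (b := eb)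
    (c := ec) ((mem_N5 _).2 (Or.inr rfl)) (by decide) (by decide) ?_ ?_ ?_ ?_ ?_ ?_ ?_ (x := ea) ?_
  · rw [mem_N5]; decide
  · rw [mem_N5]; decide
  · rw [mem_N5]; decide
  · exact FF_coset k (by decide) (by decide) (by decide) (by decide)
  · exact FF_coset k (by decide) (by decide) (by decide) (by decide)
  · exact FF_coset k (by decide) (by decide) (by decide) (by decide)
  · exact FF_coset k (by decide) (by decide) (by decide) (by decide)
  · have h1 := FF_coset k (a := ea) (by decide) (by decide) (by decide) (by decide)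
    have h2 : (((-1 : Γ5)⁻¹ * ea : Γ5) : Γ5 ⧸ N5) = (ea : Γ5 ⧸ N5) := by
      rw [QuotientGroup.eq, mem_N5]
      decide
    rw [h1 _ h2, h1 _ rfl, if_pos rfl, if_neg (by decide)]
    exact zero_ne_one

end

end Pool.Agent.R710.Par
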